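import Pool.Agent.Lib.MP_7c1622_gt.Mono

/-!
Dynamically stable curves of the curve diffusion flow are round circles traversed once.

Idea of the proof: along the flow the signed enclosed area `A` is constant and the length `L` is
nonincreasing, while `|A| / L ^ 2` is invariant under similarities and reparametrisations and
continuous in `C^1`.  Hence a dynamically stable curve is a local maximum of `|A| / L ^ 2` in the
`C^∞` topology, which forces nonzero area, then constant curvature, then covering number one.
-/

set_option autoImplicit false

namespace Pool.Agent.Results.MP_7c1622_gt.CDFStableCircle

open Pool.Agent.MP7c1622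

/-- Every smooth closed immersed plane curve which is dynamically stable for the curve diffusion
flow is a round circle traversed once. -/
theorem result (γ : ℝ → ℂ) (hγ : IsClosedCurve γ) (hstable : DynamicallyStableCDF γ) :
    ∃ (c : ℂ) (r : ℝ), 0 < r ∧ Set.range γ = Metric.sphere c r ∧ Set.InjOn γ (Set.Ico 0 1) :=
  stable_imp_circle hγ hstable

end Pool.Agent.Results.MP_7c1622_gt.CDFStableCircle
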